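import Mathlib
import Pool.Agent.W72.SqD

set_option autoImplicit false

namespace Pool.Agent.Results.MP_d2f903_nt.SquareRatio

open Polynomial Filter

/-- The naive height of an integer polynomial: the maximum absolute value of its coefficients. -/
noncomputable def height (P : ℤ[X]) : ℕ := P.support.sup (fun i => (P.coeff i).natAbs)

/-- `P` is the minimal polynomial over `ℤ` of the real number `α`: irreducible, primitive,
with positive leading coefficient, vanishing at `α`. -/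
def IsMinPolyZ (P : ℤ[X]) (α : ℝ) : Prop :=
  Irreducible P ∧ P.IsPrimitive ∧ 0 < P.leadingCoeff ∧ aeval α P = 0

/-- Koksma's exponent `w_n^*(ξ)`, in the extended reals: the supremum of the real `w` for which
infinitely many real algebraic numbers `α` of degree at most `n` satisfy
`0 < |ξ - α| ≤ H(α)^(-w-1)`. -/
noncomputable def wKoksma (ξ : ℝ) (n : ℕ) : EReal :=
  sSup {W : EReal | ∃ w : ℝ, W = (w : EReal) ∧
    {α : ℝ | ∃ P : ℤ[X], IsMinPolyZ P α ∧ P.natDegree ≤ n ∧ 0 < |ξ - α| ∧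
      |ξ - α| ≤ (height P : ℝ) ^ (-w - 1)}.Infinite}

/-- `w^*(ξ) = limsup w_n^*(ξ) / n`; this is the *-type of an `S^*`-number. -/
noncomputable def wStar (ξ : ℝ) : EReal :=
  limsup (fun n : ℕ => wKoksma ξ n / (n : EReal)) atTop

/-- `S^*`-numbers. -/
def IsSStar (ξ : ℝ) : Prop := 0 < wStar ξ ∧ wStar ξ < ⊤

theorem wK_eq (ξ : ℝ) (n : ℕ) : wKoksma ξ n =
    sSup {W : EReal | ∃ w : ℝ, W = (w : EReal) ∧ w ∈ Pool.Agent.Helper35.SSet ξ n} := rfl

theorem ratio_coe (a : ℝ) (n : ℕ) :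
    (a : EReal) / (n : EReal) = ((a / (n : ℝ) : ℝ) : EReal) := by
  rw [EReal.coe_div]
  rfl

theorem n_nonneg (n : ℕ) : (0 : EReal) ≤ (n : EReal) := by exact_mod_cast Nat.zero_le n

theorem ratio_le (W : EReal) (a b : ℝ) (n : ℕ) (hn : 1 ≤ n) (h : W ≤ (a : EReal))
    (hab : a ≤ b * n) : W / (n : EReal) ≤ (b : EReal) := by
  have h1 : W / (n : EReal) ≤ (a : EReal) / (n : EReal) :=
    EReal.div_le_div_right_of_nonneg (n_nonneg n) h
  refine h1.trans ?_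
  rw [ratio_coe]
  have hn' : (0 : ℝ) < n := by exact_mod_cast hn
  have h2 : a / (n : ℝ) ≤ b := by
    rw [div_le_iff₀ hn']
    exact hab
  exact_mod_cast h2

theorem le_ratio (W : EReal) (a b : ℝ) (n : ℕ) (hn : 1 ≤ n) (h : (a : EReal) ≤ W)
    (hab : b * n ≤ a) : (b : EReal) ≤ W / (n : EReal) := by
  have h1 : (a : EReal) / (n : EReal) ≤ W / (n : EReal) :=
    EReal.div_le_div_right_of_nonneg (n_nonneg n) h
  refine le_trans ?_ h1
  rw [ratio_coe]
  have hn' : (0 : ℝ) < n := by exact_mod_cast hn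
  have h2 : b ≤ a / (n : ℝ) := by
    rw [le_div_iff₀ hn']
    exact hab
  exact_mod_cast h2

theorem sSup_le_of (S : Set ℝ) (a : ℝ) (h : ∀ w ∈ S, w ≤ a) :
    sSup {W : EReal | ∃ w : ℝ, W = (w : EReal) ∧ w ∈ S} ≤ (a : EReal) := by
  apply sSup_le
  rintro W ⟨w, rfl, hw⟩
  exact_mod_cast h w hw

/-- Upper bound for `w^*`. -/
theorem wStar_le (ξ : ℝ) (b K : ℝ)
    (h : ∀ n : ℕ, ∀ w ∈ Pool.Agent.Helper35.SSet ξ n, w ≤ b * n + K) :
    wStar ξ ≤ (b : EReal) := by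
  apply le_of_forall_gt_imp_ge_of_dense
  intro c hc
  obtain ⟨b', hb1, hb2⟩ := EReal.lt_iff_exists_real_btwn.mp hc
  have hbb : b < b' := by exact_mod_cast hb1
  refine le_trans ?_ hb2.le
  apply limsup_le_of_le
  · isBoundedDefault
  · obtain ⟨N, hN⟩ := exists_nat_gt (K / (b' - b))
    filter_upwards [eventually_ge_atTop (N + 1)] with n hn
    have hnN : (N : ℝ) ≤ n := by exact_mod_cast (by omega : N ≤ n)
    apply ratio_le _ (b * n + K) b' n (by omega)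
    · rw [wK_eq]
      exact sSup_le_of _ _ (h n)
    · have h1 : K / (b' - b) < n := lt_of_lt_of_le hN hnN
      rw [div_lt_iff₀ (by linarith)] at h1
      nlinarith

/-- Lower bound for `w^*`. -/
theorem le_wStar (ξ : ℝ) (b : ℝ)
    (h : ∀ b' : ℝ, b' < b → ∃ᶠ n : ℕ in atTop, b' * n ∈ Pool.Agent.Helper35.SSet ξ n) :
    (b : EReal) ≤ wStar ξ := by
  apply le_of_forall_lt_imp_le_of_dense
  intro c hc
  obtain ⟨b', hb1, hb2⟩ := EReal.lt_iff_exists_real_btwn.mp hc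
  have hbb : b' < b := by exact_mod_cast hb2
  refine le_trans hb1.le ?_
  apply le_limsup_of_frequently_le
  · refine ((h b' hbb).and_eventually (eventually_ge_atTop 1)).mono ?_
    rintro n ⟨hn, hn1⟩
    apply le_ratio _ (b' * n) b' n hn1 _ le_rfl
    rw [wK_eq]
    exact le_sSup ⟨b' * n, rfl, hn⟩
  · isBoundedDefault

/-- Extraction of good approximations. -/
theorem of_lt_wStar (ξ : ℝ) (b : ℝ) (h : (b : EReal) < wStar ξ) :
    ∃ᶠ n : ℕ in atTop, ∃ w ∈ Pool.Agent.Helper35.SSet ξ n, b * n < w := by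
  have h1 : ∃ᶠ n : ℕ in atTop, (b : EReal) < wKoksma ξ n / (n : EReal) :=
    frequently_lt_of_lt_limsup (by isBoundedDefault) h
  refine (h1.and_eventually (eventually_ge_atTop 1)).mono ?_
  rintro n ⟨hn, hn1⟩
  by_contra hcon
  push Not at hcon
  have h2 : wKoksma ξ n / (n : EReal) ≤ (b : EReal) := by
    apply ratio_le _ (b * n) b n hn1 _ le_rfl
    rw [wK_eq]
    exact sSup_le_of _ _ hcon
  exact absurd hn (not_lt.mpr h2)

/-- `w^*(ξ²) ≥ w^*(ξ) / 2`. -/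
theorem half_sq (ξ : ℝ) (hξ : ξ ≠ 0) (b : ℝ) (hb : 0 < b) (h : (b : EReal) < wStar ξ) :
    ((b / 2 : ℝ) : EReal) ≤ wStar (ξ ^ 2) := by
  apply le_wStar
  intro b' hb'
  obtain ⟨N, hN⟩ := exists_nat_gt (1 / (b - 2 * b'))
  refine ((of_lt_wStar ξ b h).and_eventually (eventually_ge_atTop N)).mono ?_
  rintro n ⟨⟨w, hw, hbw⟩, hn⟩
  have hnN : (N : ℝ) ≤ n := by exact_mod_cast hn
  have h1 : 1 / (b - 2 * b') < n := lt_of_lt_of_le hN hnN
  have hpos : 0 < b - 2 * b' := by linarith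
  rw [div_lt_iff₀ hpos] at h1
  have hn0 : (0 : ℝ) ≤ n := Nat.cast_nonneg n
  have hbn : 0 ≤ b * n := by positivity
  exact Pool.Agent.W72.SSet_sq ξ n w (by linarith) hw hξ (b' * n) (by nlinarith)

/-- `w^*(ξ) ≥ w^*(ξ²) / 2`. -/
theorem half_sqrt (ξ : ℝ) (hξ : ξ ≠ 0) (b : ℝ) (hb : 0 < b) (h : (b : EReal) < wStar (ξ ^ 2)) :
    ((b / 2 : ℝ) : EReal) ≤ wStar ξ := by
  apply le_wStar
  intro b' hb'
  have h1 := of_lt_wStar (ξ ^ 2) b h
  rw [frequently_atTop] at h1 ⊢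
  intro N
  obtain ⟨n, hn, w, hw, hbw⟩ := h1 N
  refine ⟨2 * n, by omega, ?_⟩
  have hn0 : (0 : ℝ) ≤ n := Nat.cast_nonneg n
  have hbn : 0 ≤ b * n := by positivity
  refine Pool.Agent.W72.SSet_sqrt ξ n w (by linarith) hw hξ (b' * ((2 * n : ℕ) : ℝ)) ?_
  push_cast
  nlinarith

/-- The general inequalities. -/
theorem general (ξ : ℝ) (h : IsSStar ξ) :
    IsSStar (ξ ^ 2) ∧ wStar ξ ≤ 2 * wStar (ξ ^ 2) ∧ wStar (ξ ^ 2) ≤ 2 * wStar ξ := by
  obtain ⟨h0, hT⟩ := h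
  obtain ⟨r, hr⟩ : ∃ r : ℝ, wStar ξ = (r : EReal) :=
    ⟨(wStar ξ).toReal, (EReal.coe_toReal hT.ne (ne_bot_of_gt h0)).symm⟩
  have hr0 : 0 < r := by rw [hr] at h0; exact_mod_cast h0
  by_cases hξ : ξ = 0
  · have e : ξ ^ 2 = ξ := by rw [hξ]; norm_num
    rw [e]
    have h1 : wStar ξ ≤ 2 * wStar ξ := by
      rw [hr]
      have : ((2 : EReal)) * (r : EReal) = ((2 * r : ℝ) : EReal) := by push_cast; rfl
      rw [this]
      exact_mod_cast (by linarith : r ≤ 2 * r)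
    exact ⟨⟨h0, hT⟩, h1, h1⟩
  · have hlow : ((r / 4 : ℝ) : EReal) ≤ wStar (ξ ^ 2) := by
      have := half_sq ξ hξ (r / 2) (by linarith) (by
        rw [hr]; exact_mod_cast (by linarith : r / 2 < r))
      refine le_trans (le_of_eq ?_) this
      congr 1
      ring
    have h0' : 0 < wStar (ξ ^ 2) :=
      lt_of_lt_of_le (by exact_mod_cast (by linarith : (0 : ℝ) < r / 4)) hlow
    have hT' : wStar (ξ ^ 2) < ⊤ := by
      by_contra hc
      have htop : wStar (ξ ^ 2) = ⊤ := not_lt_top_iff.mp hc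
      have := half_sqrt ξ hξ (2 * r + 2) (by linarith) (by rw [htop]; exact EReal.coe_lt_top _)
      rw [hr] at this
      have h2 : (2 * r + 2) / 2 ≤ r := by exact_mod_cast this
      linarith
    obtain ⟨s, hs⟩ : ∃ s : ℝ, wStar (ξ ^ 2) = (s : EReal) :=
      ⟨(wStar (ξ ^ 2)).toReal, (EReal.coe_toReal hT'.ne (ne_bot_of_gt h0')).symm⟩
    have hs0 : 0 < s := by rw [hs] at h0'; exact_mod_cast h0'
    have e1 : ((2 : EReal)) * (s : EReal) = ((2 * s : ℝ) : EReal) := by push_cast; rfl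
    have e2 : ((2 : EReal)) * (r : EReal) = ((2 * r : ℝ) : EReal) := by push_cast; rfl
    refine ⟨⟨h0', hT'⟩, ?_, ?_⟩
    · rw [hr, hs, e1]
      by_contra hc
      have hc' : 2 * s < r := by
        rw [not_le] at hc
        exact_mod_cast hc
      have := half_sq ξ hξ ((2 * s + r) / 2) (by linarith) (by
        rw [hr]; exact_mod_cast (by linarith : (2 * s + r) / 2 < r))
      rw [hs] at this
      have h2 : (2 * s + r) / 2 / 2 ≤ s := by exact_mod_cast this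
      linarith
    · rw [hr, hs, e2]
      by_contra hc
      have hc' : 2 * r < s := by
        rw [not_le] at hc
        exact_mod_cast hc
      have := half_sqrt ξ hξ ((2 * r + s) / 2) (by linarith) (by
        rw [hs]; exact_mod_cast (by linarith : (2 * r + s) / 2 < s))
      rw [hr] at this
      have h2 : (2 * r + s) / 2 / 2 ≤ r := by exact_mod_cast this
      linarith

/-- The examples. -/
theorem examples (τ : ℝ) (hτ : 160 ≤ τ) : ∃ ξ : ℝ, 0 < ξ ∧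
    wStar ξ = (τ : EReal) ∧ wStar (ξ ^ 2) = ((τ / 2 : ℝ) : EReal) ∧
    wStar (Real.sqrt ξ) = ((τ / 2 : ℝ) : EReal) := by
  obtain ⟨e, he⟩ : ∃ e : ℕ → ℕ, e = fun k => 2 * (Nat.unpair k).1 := ⟨_, rfl⟩
  obtain ⟨U, hU⟩ : ∃ U : ℕ → ℕ, ∀ j, U j = ⌊τ * ((j : ℝ) + 2) / 2⌋₊ := ⟨_, fun _ => rfl⟩
  obtain ⟨V, hVU⟩ : ∃ V : ℕ → ℕ, ∀ j, V j = 2 * U j := ⟨fun j => 2 * U j, fun _ => rfl⟩
  obtain ⟨Mq, hMq⟩ : ∃ Mq : ℕ → ℕ, Pool.Agent.Helper35.Demand e Mq := ⟨_, fun k => le_rfl⟩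
  have hUup : ∀ j : ℕ, (U j : ℝ) ≤ τ * ((j : ℝ) + 2) / 2 := by
    intro j
    rw [hU]
    exact Nat.floor_le (by positivity)
  have hUlo : ∀ j : ℕ, τ * ((j : ℝ) + 2) / 2 - 1 < U j := by
    intro j
    rw [hU]
    exact Nat.sub_one_lt_floor _
  have hU81 : ∀ j, 80 * j + 81 ≤ U j := by
    intro j
    have h1 := hUlo j
    have hj : (0 : ℝ) ≤ j := Nat.cast_nonneg j
    have h2 : (80 * (j : ℝ) + 81) < (U j : ℝ) := by nlinarith
    have h3 : ((80 * j + 81 : ℕ) : ℝ) < (U j : ℝ) := by push_cast; exact h2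
    exact (by exact_mod_cast h3 : 80 * j + 81 < U j).le
  have hUmono : StrictMono U := by
    apply strictMono_nat_of_lt_succ
    intro j
    have h1 := hUup j
    have h2 := hUlo (j + 1)
    push_cast at h2
    have h3 : (U j : ℝ) < U (j + 1) := by nlinarith
    exact_mod_cast h3
  have hVmono : Monotone V := fun a b hab => by
    rw [hVU, hVU]; have := hUmono.monotone hab; omega
  have hV : ∀ j, 22 ≤ V j := fun j => by rw [hVU]; have := hU81 j; omega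
  have hodd : ∀ k, Odd (e k + 1) := by
    intro k
    rw [he]
    exact ⟨(Nat.unpair k).1, rfl⟩
  have hinf : ∀ i K : ℕ, ∃ k, K ≤ k ∧ e k = 2 * i := by
    intro i K
    refine ⟨Nat.pair i K, Nat.right_le_pair i K, ?_⟩
    simp [he]
  obtain ⟨X⟩ := Pool.Agent.Helper35.sdata_exists e V Mq hV
  have h0 := X.ξ0
  have h1 := X.ξ1
  have hVup : ∀ j : ℕ, (V j : ℝ) ≤ τ * ((j : ℝ) + 2) := by
    intro j
    have := hUup j
    rw [hVU]; push_cast; linarith
  have hVlo : ∀ j : ℕ, τ * ((j : ℝ) + 2) - 2 < V j := by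
    intro j
    have := hUlo j
    rw [hVU]; push_cast; linarith
  have hne := Pool.Agent.W72.ne_zero_at X hMq hV hVmono
    (fun j => by rw [hVU]; have := hU81 j; omega)
  have hξ0 : X.ξ ≠ 0 := by
    have := hne Polynomial.X X_ne_zero
    rwa [aeval_X] at this
  have hξpos : 0 < X.ξ := lt_of_le_of_ne h0 hξ0.symm
  have hs0 : 0 < Real.sqrt X.ξ := Real.sqrt_pos.mpr hξpos
  have hs1 : Real.sqrt X.ξ ≤ 1 := Real.sqrt_le_one.mpr h1
  have hs2 : (Real.sqrt X.ξ) ^ 2 = X.ξ := Real.sq_sqrt h0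
  -- the value at `ξ`
  have hA1 : wStar X.ξ ≤ (τ : EReal) := by
    apply wStar_le X.ξ τ (2 * τ)
    intro n w hw
    obtain ⟨c, hc, hcc⟩ := X.bound_all hMq hV n (V n)
      (by rw [hVU]; have := hU81 n; omega) (fun j hj => hVmono hj.le)
    have h2 := Pool.Agent.Helper35.SSet_le X.ξ h0 h1 n _ c hc hcc w hw
    have h3 := hVup n
    linarith
  have hA2 : (τ : EReal) ≤ wStar X.ξ := by
    apply le_wStar
    intro b hb
    rw [frequently_atTop]
    intro N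
    refine ⟨2 * N + 1, by omega, ?_⟩
    apply X.mem_SSet hMq hV (2 * N) (hinf N)
    have h2 := hVlo (2 * N)
    push_cast at h2 ⊢
    have hN : (0 : ℝ) ≤ N := Nat.cast_nonneg N
    nlinarith
  have hA : wStar X.ξ = (τ : EReal) := le_antisymm hA1 hA2
  -- the value at `ξ^2`
  have hB1 : wStar (X.ξ ^ 2) ≤ ((τ / 2 : ℝ) : EReal) := by
    apply wStar_le (X.ξ ^ 2) (τ / 2) τ
    intro n w hw
    obtain ⟨c, hc, hcc⟩ := Pool.Agent.W72.bound_sq' X hodd hMq U hVU hUmono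
      (fun j => by have := hU81 j; omega) n
    have h2 := Pool.Agent.Helper35.SSet_le (X.ξ ^ 2) (by positivity) (pow_le_one₀ h0 h1) n _ c hc
      hcc w hw
    have h3 := hUup n
    linarith
  have hC1 : wStar (Real.sqrt X.ξ) ≤ ((τ / 2 : ℝ) : EReal) := by
    apply wStar_le (Real.sqrt X.ξ) (τ / 2) (2 * τ + 1)
    intro n w hw
    obtain ⟨c, hc, hcc⟩ := Pool.Agent.W72.bound_sqrt X hodd hMq hVmono
      (fun j => by rw [hVU]; have := hU81 j; omega) n
    have h2 := Pool.Agent.Helper35.SSet_le (Real.sqrt X.ξ) hs0.le hs1 n _ c hc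
      hcc w hw
    have h3 := hVup (n / 2)
    have h4 : ((n / 2 : ℕ) : ℝ) ≤ (n : ℝ) / 2 := Nat.cast_div_le
    push_cast at h2
    nlinarith
  have key : ∀ x : EReal, (∀ b : ℝ, 0 < b → b < τ → ((b / 2 : ℝ) : EReal) ≤ x) →
      ((τ / 2 : ℝ) : EReal) ≤ x := by
    intro x hx
    apply le_of_forall_lt_imp_le_of_dense
    intro c hc
    obtain ⟨d, hd1, hd2⟩ := EReal.lt_iff_exists_real_btwn.mp hc
    have hd3 : d < τ / 2 := by exact_mod_cast hd2
    refine le_trans ?_ (hx (max (2 * d) 1) (lt_of_lt_of_le one_pos (le_max_right _ _))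
      (max_lt (by linarith) (by linarith)))
    refine hd1.le.trans ?_
    have : d ≤ max (2 * d) 1 / 2 := by
      have := le_max_left (2 * d) 1
      linarith
    exact_mod_cast this
  refine ⟨X.ξ, hξpos, hA, le_antisymm hB1 (key _ fun b hb hbτ => ?_),
    le_antisymm hC1 (key _ fun b hb hbτ => ?_)⟩
  · exact half_sq X.ξ hξ0 b hb (by rw [hA]; exact_mod_cast hbτ)
  · exact half_sqrt (Real.sqrt X.ξ) hs0.ne' b hb (by rw [hs2, hA]; exact_mod_cast hbτ)

/-- For every `S^*`-number `ξ`, also `ξ²` is an `S^*`-number and the `*`-types of `ξ` and `ξ²`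
differ by a factor at most `2`; both extreme factors occur, for all large values of the type. In
particular there are `S^*`-numbers `ξ` with `t^*(ξ) ≠ t^*(ξ²)`. -/
theorem result :
    (∀ ξ : ℝ, IsSStar ξ →
      IsSStar (ξ ^ 2) ∧ wStar ξ ≤ 2 * wStar (ξ ^ 2) ∧ wStar (ξ ^ 2) ≤ 2 * wStar ξ) ∧
    (∀ τ : ℝ, 160 ≤ τ →
      (∃ ξ : ℝ, IsSStar ξ ∧ wStar ξ = (τ : EReal) ∧ wStar (ξ ^ 2) = ((τ / 2 : ℝ) : EReal)) ∧
      (∃ ξ : ℝ, IsSStar ξ ∧ wStar ξ = ((τ / 2 : ℝ) : EReal) ∧ wStar (ξ ^ 2) = (τ : EReal))) := by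
  refine ⟨general, fun τ hτ => ?_⟩
  obtain ⟨ξ, h0, h1, h2, h3⟩ := examples τ hτ
  refine ⟨⟨ξ, ⟨?_, ?_⟩, h1, h2⟩, ⟨Real.sqrt ξ, ⟨?_, ?_⟩, h3, ?_⟩⟩
  · rw [h1]; exact_mod_cast (by linarith : (0 : ℝ) < τ)
  · rw [h1]; exact EReal.coe_lt_top _
  · rw [h3]; exact_mod_cast (by linarith : (0 : ℝ) < τ / 2)
  · rw [h3]; exact EReal.coe_lt_top _
  · rw [Real.sq_sqrt h0.le]; exact h1

end Pool.Agent.Results.MP_d2f903_nt.SquareRatio
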